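import Mathlib

set_option autoImplicit false

/-!
# The spheres of an FM-tetrahedron never meet the opposite faces

Packings of `ℝ³` by balls of radii `1` and `r = √2 - 1`, saturated with respect to balls of radius
`r`. If four balls of such a packing have additively weighted Voronoi cells with a common point
(this is the case for the four balls of every tetrahedron of the FM-decomposition), then the closed
ball at any of the four vertices is disjoint from the closed triangle spanned by the other three
centres.

Idea: let `O` be the common point and `ρ` the common value of `|O - X| - r_X`. Saturation gives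
`ρ < r`. The function `Y ↦ |O - Y|² - |A - Y|²` is affine, it is smaller than `ρ² - r_A²` at the
centres `B, C, D`, hence on the whole triangle, but it is at least `ρ² - r_A²` at every point of
the closed ball of radius `r_A` about `A`.
-/

namespace Pool.Agent.Results.MP_a6ca0f_co.OppositeFace

open Metric

/-- Euclidean 3-space. -/
abbrev E3 : Type := EuclideanSpace ℝ (Fin 3)

/-- A ball of `ℝ³`, given by its centre and its radius. -/
structure Ball where
  /-- the centre -/
  c : E3
  /-- the radius -/
  rad : ℝ

/-- The closed ball as a set of points. -/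
def Ball.carrier (b : Ball) : Set E3 := closedBall b.c b.rad

/-- The radius `r = √2 - 1` of the small balls. -/
noncomputable def r : ℝ := Real.sqrt 2 - 1

/-- A packing: a collection of closed balls with pairwise disjoint interiors, each of radius `1`
or `r`. -/
def IsPacking (P : Set Ball) : Prop :=
  (∀ b ∈ P, b.rad = 1 ∨ b.rad = r) ∧
    ∀ b ∈ P, ∀ b' ∈ P, b ≠ b' → Disjoint (interior b.carrier) (interior b'.carrier)

/-- The packing is saturated: no further ball of radius `r` can be added with the interiors still
pairwise disjoint. -/
def IsSaturated (P : Set Ball) : Prop :=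
  ∀ x : E3, ∃ b ∈ P, ¬ Disjoint (interior (closedBall x r)) (interior b.carrier)

/-- The (additively weighted Voronoi) cell of the ball `b` in `P`: the points `x` for which
`|x - c| - ρ` is at most the corresponding quantity of every ball of the packing. -/
def cell (P : Set Ball) (b : Ball) : Set E3 :=
  {x | ∀ b' ∈ P, dist x b.c - b.rad ≤ dist x b'.c - b'.rad}

/-- Four balls of the packing, with affinely independent centres, whose cells have a common point
(a vertex of the cell decomposition). The centres of the balls whose cells contain a given vertex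
span the polyhedron of the FM-decomposition belonging to that vertex; so every tetrahedron of the
FM-decomposition, also one obtained by cutting a larger polyhedron, is of this kind. -/
def IsFMTetrahedron (P : Set Ball) (T : Fin 4 → Ball) : Prop :=
  (∀ i, T i ∈ P) ∧ AffineIndependent ℝ (fun i => (T i).c) ∧ ∃ O : E3, ∀ i, O ∈ cell P (T i)

/-- The closed face of the tetrahedron opposite to the vertex `i`: the triangle spanned by the
other three centres. -/
def oppositeFace (T : Fin 4 → Ball) (i : Fin 4) : Set E3 :=
  convexHull ℝ {x | ∃ j, j ≠ i ∧ x = (T j).c}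

theorem r_pos : 0 < r := by
  unfold r
  have : (1 : ℝ) < Real.sqrt 2 := by
    rw [Real.lt_sqrt (by norm_num)]; norm_num
  linarith

theorem r_lt_one : r < 1 := by
  unfold r
  have : Real.sqrt 2 < 2 := by
    rw [Real.sqrt_lt' (by norm_num)]; norm_num
  linarith

theorem dist_ge {x y : E3} {s t : ℝ} (hs : 0 < s) (ht : 0 < t)
    (h : Disjoint (interior (closedBall x s)) (interior (closedBall y t))) : s + t ≤ dist x y := by
  rw [interior_closedBall _ hs.ne', interior_closedBall _ ht.ne'] at h
  rcases eq_or_ne x y with rfl | hne
  · exfalso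
    exact Set.disjoint_left.1 h (mem_ball_self hs) (mem_ball_self ht)
  · by_contra hlt
    push Not at hlt
    have hd : 0 < dist x y := dist_pos.2 hne
    -- a point on the segment
    set a : ℝ := s / (s + t) with ha
    have hst : 0 < s + t := by linarith
    have ha0 : 0 < a := by positivity
    have ha1 : a < 1 := by rw [ha, div_lt_one hst]; linarith
    set z : E3 := AffineMap.lineMap x y a with hz
    have h1 : dist z x < s := by
      rw [hz, dist_lineMap_left, Real.norm_of_nonneg ha0.le]
      calc a * dist x y < a * (s + t) := by gcongr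
        _ = s := by rw [ha]; field_simp
    have h2 : dist z y < t := by
      rw [hz, dist_lineMap_right, Real.norm_of_nonneg (by linarith)]
      calc (1 - a) * dist x y < (1 - a) * (s + t) := by
            apply mul_lt_mul_of_pos_left hlt; linarith
        _ = t := by rw [ha]; field_simp; ring
    exact Set.disjoint_left.1 h (mem_ball.2 h1) (mem_ball.2 h2)

theorem disjoint_of_dist {x y : E3} {s t : ℝ} (hs : 0 < s) (ht : 0 < t)
    (h : s + t ≤ dist x y) : Disjoint (interior (closedBall x s)) (interior (closedBall y t)) := by
  rw [interior_closedBall _ hs.ne', interior_closedBall _ ht.ne']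
  exact ball_disjoint_ball h

/-- the affine function `Y ↦ |O - Y|² - |A - Y|²` -/
theorem affine_identity (O A Y : E3) :
    dist O Y ^ 2 - dist A Y ^ 2 =
      (inner ℝ O O - inner ℝ A A) - 2 * inner ℝ (O - A) Y := by
  rw [dist_eq_norm, dist_eq_norm, ← real_inner_self_eq_norm_sq, ← real_inner_self_eq_norm_sq]
  simp only [inner_sub_left, inner_sub_right]
  rw [real_inner_comm Y O, real_inner_comm Y A]
  ring

theorem result (P : Set Ball) (hP : IsPacking P) (hsat : IsSaturated P) (T : Fin 4 → Ball)
    (hT : IsFMTetrahedron P T) (i : Fin 4) :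
    Disjoint (T i).carrier (oppositeFace T i) := by
  obtain ⟨hmem, haff, O, hO⟩ := hT
  have hradP : ∀ b ∈ P, r ≤ b.rad := by
    intro b hb
    rcases hP.1 b hb with h | h
    · rw [h]; exact r_lt_one.le
    · rw [h]
  have hpos : ∀ b ∈ P, 0 < b.rad := fun b hb => r_pos.trans_le (hradP b hb)
  have hrad : ∀ j, r ≤ (T j).rad := fun j => hradP _ (hmem j)
  -- the common value
  set ρ : ℝ := dist O (T i).c - (T i).rad with hρ
  have hall : ∀ j, dist O (T j).c = ρ + (T j).rad := by
    intro j
    have h1 := hO i (T j) (hmem j)
    have h2 := hO j (T i) (hmem i)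
    rw [hρ]; linarith
  have hmin : ∀ b ∈ P, ρ ≤ dist O b.c - b.rad := fun b hb => hO i b hb
  -- saturation
  have hρr : ρ < r := by
    by_contra hge
    push Not at hge
    obtain ⟨b, hb, hnd⟩ := hsat O
    apply hnd
    apply disjoint_of_dist r_pos (hpos b hb)
    have := hmin b hb
    linarith
  have hne : ∀ j, j ≠ i → T j ≠ T i := by
    intro j hj h
    apply hj
    apply haff.injective
    simp [h]
  have hsep : ∀ j, j ≠ i → (T i).rad + (T j).rad ≤ dist (T i).c (T j).c := by
    intro j hj
    exact dist_ge (hpos _ (hmem i)) (hpos _ (hmem j))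
      (hP.2 _ (hmem i) _ (hmem j) (hne j hj).symm)
  have hρ0 : 0 ≤ ρ := by
    obtain ⟨j, hj⟩ : ∃ j : Fin 4, j ≠ i := exists_ne i
    have h1 := hsep j hj
    have h2 := hall i
    have h3 := hall j
    have h4 := dist_triangle_left (T i).c (T j).c O
    linarith
  -- the half-space
  have hface : oppositeFace T i ⊆
      {Y | dist O Y ^ 2 - dist (T i).c Y ^ 2 < ρ ^ 2 - (T i).rad ^ 2} := by
    apply convexHull_min
    · rintro x ⟨j, hj, rfl⟩
      have h1 := hsep j hj
      have h2 := hall j
      have h3 : r ≤ (T i).rad := hrad i
      have h4 := hpos _ (hmem j)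
      have h5 := hpos _ (hmem i)
      show dist O (T j).c ^ 2 - dist (T i).c (T j).c ^ 2 < ρ ^ 2 - (T i).rad ^ 2
      rw [h2]
      have h6 : ((T i).rad + (T j).rad) ^ 2 ≤ dist (T i).c (T j).c ^ 2 := by
        apply pow_le_pow_left₀ (by linarith) h1
      nlinarith [mul_pos h4 (sub_pos.2 (hρr.trans_le h3))]
    · have : {Y : E3 | dist O Y ^ 2 - dist (T i).c Y ^ 2 < ρ ^ 2 - (T i).rad ^ 2} =
          {Y : E3 | (inner ℝ O O - inner ℝ (T i).c (T i).c - (ρ ^ 2 - (T i).rad ^ 2)) / 2 <
            innerₗ E3 (O - (T i).c) Y} := by
        ext Y
        simp only [Set.mem_setOf_eq, innerₗ_apply_apply]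
        rw [affine_identity]
        constructor <;> intro h <;> linarith
      rw [this]
      exact convex_halfSpace_gt (innerₗ E3 (O - (T i).c)).isLinear _
  rw [Set.disjoint_left]
  intro X hX hX'
  have h1 := hface hX'
  simp only [Set.mem_setOf_eq] at h1
  have h2 : dist X (T i).c ≤ (T i).rad := mem_closedBall.1 hX
  rw [dist_comm] at h2
  have h3 : dist O (T i).c ≤ dist O X + dist X (T i).c := dist_triangle _ _ _
  rw [dist_comm X] at h3
  rw [hall i] at h3
  have h4 : 0 ≤ dist (T i).c X := dist_nonneg
  have h5 : 0 < (T i).rad := hpos _ (hmem i)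
  have h6 : (ρ + (T i).rad - dist (T i).c X) ^ 2 ≤ dist O X ^ 2 := by
    apply pow_le_pow_left₀ (by linarith)
    linarith
  nlinarith [mul_nonneg (add_nonneg hρ0 h5.le) (sub_nonneg.2 h2)]

end Pool.Agent.Results.MP_a6ca0f_co.OppositeFace
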